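import Pool.Agent.H648.Q.Defs2
import Pool.Graph.R_seed8.W376.GR.Unit

/-! Q648-ETA: a unit congruent to `1`. -/

set_option autoImplicit false

namespace Pool.Agent.H803.Q648

open Finset
open Pool.Agent.W78.GR
open Pool.Agent.H648.Q2 (S_ETA)

variable {t c : ℤ}

theorem s1_pow (hd : 4 * c < t ^ 2) (z : Qd t c) (k : ℕ) : s1 (z ^ k) = s1 z ^ k := by
  induction k with
  | zero => rw [pow_zero, pow_zero, s1_one]
  | succ k ih => rw [pow_succ, pow_succ, s1_mul hd, ih]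

theorem tp_pow (hd : 4 * c < t ^ 2) {z : Qd t c} (hz : tp z) (k : ℕ) : tp (z ^ k) := by
  induction k with
  | zero => rw [pow_zero]; exact tp_one
  | succ k ih => rw [pow_succ]; exact tp_mul hd ih hz

/-- some power of a unit is congruent to `1` modulo `A` -/
theorem pow_cong (η : (Qd t c)ˣ) (A : ℕ) (hA : 1 ≤ A) :
    ∃ k : ℕ, 1 ≤ k ∧ (A : ℤ) ∣ (((η ^ k : (Qd t c)ˣ) : Qd t c)).re - 1 := by
  have : NeZero A := ⟨by omega⟩
  let f : ℕ → ZMod A × ZMod A := fun k =>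
    (((((η ^ k : (Qd t c)ˣ) : Qd t c)).re : ZMod A), ((((η ^ k : (Qd t c)ˣ) : Qd t c)).im : ZMod A))
  have key : ∀ i j : ℕ, i < j → f i = f j →
      (A : ℤ) ∣ (((η ^ (j - i) : (Qd t c)ˣ) : Qd t c)).re - 1 := by
    intro i j hij hf
    obtain ⟨h1, h2⟩ := Prod.mk.inj hf
    have h3 : (A : ℤ) ∣ (((η ^ j : (Qd t c)ˣ) : Qd t c)).re - (((η ^ i : (Qd t c)ˣ) : Qd t c)).re := by
      rw [← ZMod.intCast_eq_intCast_iff_dvd_sub]
      exact h1
    have h4 : (A : ℤ) ∣ (((η ^ j : (Qd t c)ˣ) : Qd t c)).im - (((η ^ i : (Qd t c)ˣ) : Qd t c)).im := by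
      rw [← ZMod.intCast_eq_intCast_iff_dvd_sub]
      exact h2
    obtain ⟨x, hx⟩ := h3
    obtain ⟨y, hy⟩ := h4
    obtain ⟨v, hv⟩ : ∃ v : Qd t c, v = ((η ^ i : (Qd t c)ˣ)⁻¹ : (Qd t c)ˣ) := ⟨_, rfl⟩
    have h5 : ((η ^ (j - i) : (Qd t c)ˣ) : Qd t c) = ((η ^ j : (Qd t c)ˣ) : Qd t c) * v := by
      rw [hv, ← Units.val_mul]
      congr 1
      rw [eq_mul_inv_iff_mul_eq, ← pow_add]
      congr 1
      omega
    have h6 : (1 : Qd t c) = ((η ^ i : (Qd t c)ˣ) : Qd t c) * v := by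
      rw [hv, ← Units.val_mul, mul_inv_cancel, Units.val_one]
    have h7 : (((η ^ (j - i) : (Qd t c)ˣ) : Qd t c)).re - (1 : Qd t c).re =
        ((((η ^ j : (Qd t c)ˣ) : Qd t c) - ((η ^ i : (Qd t c)ˣ) : Qd t c)) * v).re := by
      rw [sub_mul, ← h5, ← h6, QuadraticAlgebra.re_sub]
    rw [QuadraticAlgebra.re_one] at h7
    rw [h7, QuadraticAlgebra.re_mul, QuadraticAlgebra.re_sub, QuadraticAlgebra.im_sub, hx, hy]
    exact ⟨x * v.re + (-c) * y * v.im, by ring⟩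
  obtain ⟨i, j, hij, hf⟩ := Finite.exists_ne_map_eq_of_infinite f
  rcases lt_or_gt_of_ne hij with h | h
  · exact ⟨j - i, by omega, key i j h hf⟩
  · exact ⟨i - j, by omega, key j i h hf.symm⟩

/-- **ETA**: a totally positive unit of large size congruent to `1` modulo `A` -/
theorem eta_of {b m : ℤ} (hD : 4 * m < b ^ 2) (hns : ¬ IsSquare (b ^ 2 - 4 * m)) : S_ETA b m := by
  intro A hA
  have hA0 : (0 : ℤ) < A := by exact_mod_cast hA
  have hd : 4 * (m * (A : ℤ) ^ 2) < (b * (A : ℤ)) ^ 2 := by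
    have h1 : 0 < (A : ℤ) ^ 2 := by positivity
    nlinarith
  have hns' : ¬ IsSquare ((b * (A : ℤ)) ^ 2 - 4 * (m * (A : ℤ) ^ 2)) := by
    rintro ⟨r, hr⟩
    apply hns
    have h1 : (A : ℤ) ^ 2 ∣ r ^ 2 := ⟨b ^ 2 - 4 * m, by linear_combination -hr⟩
    rw [Int.pow_dvd_pow_iff two_ne_zero] at h1
    obtain ⟨k, hk⟩ := h1
    refine ⟨k, ?_⟩
    rw [hk] at hr
    have h2 : (A : ℤ) ^ 2 * (b ^ 2 - 4 * m) = (A : ℤ) ^ 2 * (k * k) := by linear_combination hr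
    exact mul_left_cancel₀ (pow_ne_zero 2 hA0.ne') h2
  obtain ⟨η0, hU⟩ := Pool.Agent.W376.GR.unit hd hns'
  obtain ⟨k, hk, hdvd⟩ := pow_cong η0 A hA
  refine ⟨η0 ^ k, ⟨hd, hns', ?_, ?_⟩, hdvd⟩
  · rw [Units.val_pow_eq_pow_val]
    exact tp_pow hd hU.pos k
  · rw [Units.val_pow_eq_pow_val, s1_pow hd]
    refine hU.big.trans_le ?_
    have h1 := hU.s1_gt
    exact le_self_pow₀ h1.le (by omega)

end Pool.Agent.H803.Q648
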